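import Pool.Agent.L7h17.OC.Stm

set_option autoImplicit false

open MvPolynomial

namespace Pool.Agent.L7h17.OC

/-- homogeneity at scaled points -/
theorem eval_smul_hom {F : MvPolynomial (Fin 3) ℝ} {n : ℕ} (hF : F.IsHomogeneous n) (c : ℝ)
    (v : Fin 3 → ℝ) : eval (c • v) F = c ^ n * eval v F := by
  classical
  rw [eval_eq', eval_eq', Finset.mul_sum]
  refine Finset.sum_congr rfl fun d hd => ?_
  have h1 : ∑ i, d i = n := by
    have := hF (mem_support_iff.1 hd)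
    rw [Finsupp.weight_apply, Finsupp.sum_fintype] at this
    · simpa using this
    · intro i; simp
  simp only [Pi.smul_apply, smul_eq_mul, mul_pow, Finset.prod_mul_distrib, Finset.prod_pow_eq_pow_sum]
  rw [h1]; ring

/-- the general covering argument -/
theorem cover_case (hCOVM : S_COVM) (hCOV1 : S_COV1) (hTOP : S_TOP) (hSCALE : S_SCALE)
    {F : MvPolynomial (Fin 3) ℝ} (hF : F.IsHomogeneous 8) (m : ℕ) (hm : 0 < m)
    (p : Polynomial ℝ) (B : ℝ → ℂ) (hP : Polar m F p B) (hBc : Continuous B)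
    (D : ℝ → ℝ) (hD : ∀ τ : ℝ, 0 ≤ τ → D (τ ^ 2) = ‖B τ‖ ^ 2 - p.eval (τ ^ 2) ^ 2)
    (q : ℕ) (a b : ℕ → ℝ) (hq : q ≤ 4) (hb : Band D q a b)
    (hB : ∀ τ : ℝ, 0 ≤ τ → 0 ≤ D (τ ^ 2) → B τ ≠ 0)
    (hψ : ∀ u v : ℝ, 0 ≤ u → u ≤ v →
      (∀ τ : ℝ, 0 ≤ τ → u ≤ τ ^ 2 → τ ^ 2 ≤ v → B τ ≠ 0) →
      ∃ ψ : ℝ → ℝ, ContinuousOn ψ {τ | 0 ≤ τ ∧ u ≤ τ ^ 2 ∧ τ ^ 2 ≤ v} ∧
        ∀ τ : ℝ, 0 ≤ τ → u ≤ τ ^ 2 → τ ^ 2 ≤ v → B τ =
          (‖B τ‖ : ℂ) * Complex.exp (ψ τ * Complex.I))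
    (M : ℕ) (hM : ∀ J : Finset ℕ, (∀ j ∈ J, j < q ∧ Big (fun t => p.eval t) a b j) → J.card ≤ M)
    (R : ℕ) (hmM : (m - 1) * M + 4 < R) : ¬ SplitsInto R F := by
  classical
  intro hs
  obtain ⟨hch, hband, hDb, hDa, hgap⟩ := hb
  obtain ⟨ha0, hab, hba⟩ := hch
  obtain ⟨hp4, hpc, hctr, hpol⟩ := hP
  have haj : ∀ j < q, 0 ≤ a j := by
    intro j
    induction j with
    | zero => intro _; exact ha0
    | succ j ih =>
      intro hj
      have h1 := ih (by omega)
      have h2 := hab j (by omega)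
      have h3 := hba j hj
      linarith
  -- facts on one interval
  have hfact : ∀ j < q, ∀ τ : ℝ, 0 ≤ τ → a j ≤ τ ^ 2 → τ ^ 2 ≤ b j → B τ ≠ 0 ∧
      |p.eval (τ ^ 2)| ≤ ‖B τ‖ := by
    intro j hj τ h0 h1 h2
    have h3 : 0 ≤ D (τ ^ 2) := (hband _ (by positivity)).2 ⟨j, hj, h1, h2⟩
    refine ⟨hB τ h0 h3, ?_⟩
    rw [hD τ h0] at h3
    exact abs_le_of_sq_le_sq (by linarith) (norm_nonneg _)
  have hend : ∀ t : ℝ, 0 ≤ t → D t = 0 → |p.eval t| = ‖B (Real.sqrt t)‖ := by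
    intro t ht h0
    have h1 := hD (Real.sqrt t) (Real.sqrt_nonneg t)
    rw [Real.sq_sqrt ht, h0] at h1
    have h2 : |p.eval t| ^ 2 = ‖B (Real.sqrt t)‖ ^ 2 := by rw [sq_abs]; linarith
    exact (pow_left_inj₀ (abs_nonneg _) (norm_nonneg _) two_ne_zero).1 h2
  set n : Fin q → ℕ := fun j => if Big (fun t => p.eval t) a b j then m else 1 with hn
  have hcov : ∀ j : Fin q, ∃ A : Fin (n j) → Set (Fin 3 → ℝ), (∀ k, IsPreconnected (A k)) ∧
      piece m p B (a j) (b j) = ⋃ k, A k := by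
    intro j
    have hj : (j : ℕ) < q := j.2
    have h0 := haj j hj
    have h1 := (hab j hj).le
    have hne : ∀ τ : ℝ, 0 ≤ τ → a j ≤ τ ^ 2 → τ ^ 2 ≤ b j → B τ ≠ 0 :=
      fun τ x y z => (hfact j hj τ x y z).1
    obtain ⟨ψ, hψc, hψe⟩ := hψ (a j) (b j) h0 h1 hne
    have hall : ∀ τ : ℝ, 0 ≤ τ → a j ≤ τ ^ 2 → τ ^ 2 ≤ b j → B τ ≠ 0 ∧
        |p.eval (τ ^ 2)| ≤ ‖B τ‖ ∧ B τ = (‖B τ‖ : ℂ) * Complex.exp (ψ τ * Complex.I) :=
      fun τ x y z => ⟨(hfact j hj τ x y z).1, (hfact j hj τ x y z).2, hψe τ x y z⟩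
    have hvb := hend (b j) (h0.trans h1) (hDb j hj)
    by_cases hbig : Big (fun t => p.eval t) a b j
    · have e : n j = m := by simp only [hn, if_pos hbig]
      rw [e]
      exact hCOVM m p B ψ (a j) (b j) hm h0 h1 hBc.continuousOn hψc hall hvb
    · have e : n j = 1 := by simp only [hn, if_neg hbig]
      rw [e]
      unfold Big at hbig
      rw [not_or] at hbig
      have hDaj : D (a j) = 0 := (hDa j hj).resolve_left hbig.1
      have hva := hend (a j) h0 hDaj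
      have hsa : (Real.sqrt (a j)) ^ 2 = a j := Real.sq_sqrt h0
      have hsb : (Real.sqrt (b j)) ^ 2 = b j := Real.sq_sqrt (h0.trans h1)
      have hna : p.eval (a j) ≠ 0 := by
        intro h
        rw [h, abs_zero] at hva
        exact hne (Real.sqrt (a j)) (Real.sqrt_nonneg _) (by rw [hsa]) (by rw [hsa]; exact h1)
          (norm_eq_zero.1 hva.symm)
      have hnb : p.eval (b j) ≠ 0 := by
        intro h
        rw [h, abs_zero] at hvb
        exact hne (Real.sqrt (b j)) (Real.sqrt_nonneg _) (by rw [hsb]; exact h1) (by rw [hsb])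
          (norm_eq_zero.1 hvb.symm)
      have hneg : p.eval (a j) * p.eval (b j) < 0 :=
        lt_of_le_of_ne (not_lt.1 hbig.2) (mul_ne_zero hna hnb)
      refine ⟨fun _ => piece m p B (a j) (b j), fun _ => hCOV1 m p B ψ (a j) (b j) hm h0 h1
        hBc.continuousOn hψc hall hvb hva hneg, ?_⟩
      rw [Set.iUnion_const]
  choose A hApre hAeq using hcov
  -- the number of sets
  have hcard : Fintype.card (Σ j : Fin q, Fin (n j)) < R := by
    rw [Fintype.card_sigma]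
    simp only [Fintype.card_fin]
    set J : Finset (Fin q) := Finset.univ.filter fun j => Big (fun t => p.eval t) a b j with hJ
    have h1 : ∑ j : Fin q, n j = (m - 1) * J.card + q := by
      have e : ∀ j : Fin q, n j = (if Big (fun t => p.eval t) a b j then m - 1 else 0) + 1 := by
        intro j
        simp only [hn]
        split_ifs <;> omega
      rw [Finset.sum_congr rfl fun j _ => e j, Finset.sum_add_distrib, ← Finset.sum_filter,
        Finset.sum_const, Finset.sum_const, Finset.card_univ, Fintype.card_fin]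
      simp [hJ, mul_comm]
    have h2 : J.card ≤ M := by
      have := hM (J.map Fin.valEmbedding) (by
        intro j hj
        rw [Finset.mem_map] at hj
        obtain ⟨i, hi, rfl⟩ := hj
        rw [hJ, Finset.mem_filter] at hi
        exact ⟨i.2, hi.2⟩)
      rwa [Finset.card_map] at this
    rw [h1]
    have h3 : (m - 1) * J.card ≤ (m - 1) * M := Nat.mul_le_mul_left _ h2
    omega
  let e := Fintype.equivFin (Σ j : Fin q, Fin (n j))
  have hle := hTOP R (Fintype.card (Σ j : Fin q, Fin (n j))) F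
    (fun i => A (e.symm i).1 (e.symm i).2) (fun i => hApre _ _) ?_ ?_ hs
  · omega
  · intro i w hw
    have hw' : w ∈ piece m p B (a (e.symm i).1) (b (e.symm i).1) := by
      rw [hAeq]; exact Set.mem_iUnion.2 ⟨_, hw⟩
    obtain ⟨θ, τ, h0, h1, h2, rfl, h3⟩ := hw'
    refine ⟨?_, by rw [hpol]; exact h3⟩
    intro h
    have h4 : Real.cos θ = 0 := by simpa using congrFun h 0
    have h5 : Real.sin θ = 0 := by simpa using congrFun h 1
    have h6 := Real.sin_sq_add_cos_sq θ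
    rw [h4, h5] at h6
    norm_num at h6
  · intro v hv
    obtain ⟨c, hc, θ, τ, hτ, hcv, h0⟩ := hSCALE F hF hctr v hv
    refine ⟨c, hc, ?_⟩
    have h1 := h0
    rw [hpol] at h1
    have h2 : |p.eval (τ ^ 2)| ≤ ‖B τ‖ := by
      have h3 : |(Complex.exp (m * θ * Complex.I) * B τ).re| ≤ ‖B τ‖ := by
        refine (Complex.abs_re_le_norm _).trans ?_
        rw [norm_mul]
        have : ‖Complex.exp (m * θ * Complex.I)‖ = 1 := by
          have := Complex.norm_exp_ofReal_mul_I ((m : ℝ) * θ)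
          push_cast at this
          exact this
        rw [this, one_mul]
      have h4 : p.eval (τ ^ 2) = -(Complex.exp (m * θ * Complex.I) * B τ).re := by linarith
      rw [h4, abs_neg]
      exact h3
    have h3 : 0 ≤ D (τ ^ 2) := by
      rw [hD τ hτ]
      have := sq_le_sq' (by linarith [abs_nonneg (p.eval (τ ^ 2)), norm_nonneg (B τ)]) h2
      rw [sq_abs] at this
      linarith
    obtain ⟨j, hj, h4, h5⟩ := (hband _ (by positivity)).1 h3
    have h6 : c • v ∈ piece m p B (a j) (b j) := ⟨θ, τ, hτ, h4, h5, hcv, h1⟩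
    have h7 := h6
    rw [show a j = a ((⟨j, hj⟩ : Fin q) : ℕ) from rfl, show b j = b ((⟨j, hj⟩ : Fin q) : ℕ) from rfl,
      hAeq] at h7
    obtain ⟨k, hk⟩ := Set.mem_iUnion.1 h7
    refine ⟨e ⟨⟨j, hj⟩, k⟩, ?_⟩
    rw [e.symm_apply_apply]
    exact hk

end Pool.Agent.L7h17.OC
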