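import Mathlib

/-!
# Project OC (MP_b7f146_ag): real plane octics with a symmetry of order at least five

A nonsingular real plane curve of degree 8 with a real projective symmetry of order `m ≥ 5` has at
most 19 ovals; so it is not an M-curve.
-/

set_option autoImplicit false

open MvPolynomial

namespace Pool.Agent.L7h17.OC

/-- The cone of the real part of the curve `F = 0`: the nonzero real zeros of `F`. -/
def realCone (F : MvPolynomial (Fin 3) ℝ) : Set (Fin 3 → ℝ) :=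
  {v | v ≠ 0 ∧ eval v F = 0}

/-- The real part `{F = 0} ⊆ ℝℙ²` is the union of `k` pairwise disjoint nonempty closed sets
(given by the cones over them, which are closed in `ℝ³ ∖ {0}`). -/
def SplitsInto (k : ℕ) (F : MvPolynomial (Fin 3) ℝ) : Prop :=
  ∃ C : Fin k → Set (Fin 3 → ℝ),
    (∀ i, (C i).Nonempty) ∧ (∀ i j, i ≠ j → Disjoint (C i) (C j)) ∧
    (⋃ i, C i) = realCone F ∧
    (∀ i, ∀ v ∈ C i, ∀ c : ℝ, c ≠ 0 → c • v ∈ C i) ∧
    (∀ i, ∃ K : Set (Fin 3 → ℝ), IsClosed K ∧ C i = K ∩ {v | v ≠ 0})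

/-- The curve `F = 0` is nonsingular: `F` and its partial derivatives have no common zero in
`ℂℙ²`. -/
def Nonsing (F : MvPolynomial (Fin 3) ℝ) : Prop :=
  ∀ v : Fin 3 → ℂ, v ≠ 0 → ¬ (aeval v F = 0 ∧ ∀ i, aeval v (pderiv i F) = 0)

/-- The invertible matrix `T` has order `m` as a projective transformation. -/
def ProjOrder (T : Matrix (Fin 3) (Fin 3) ℝ) (m : ℕ) : Prop :=
  IsUnit T ∧ 0 < m ∧ (∃ c : ℝ, T ^ m = c • (1 : Matrix (Fin 3) (Fin 3) ℝ)) ∧
    ∀ k : ℕ, 0 < k → k < m → ¬ ∃ c : ℝ, T ^ k = c • (1 : Matrix (Fin 3) (Fin 3) ℝ)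

/-- `T` maps the curve `F = 0` to itself. -/
def Preserves (T : Matrix (Fin 3) (Fin 3) ℝ) (F : MvPolynomial (Fin 3) ℝ) : Prop :=
  ∃ χ : ℝ, ∀ v : Fin 3 → ℝ, eval (T.mulVec v) F = χ * eval v F

/-- The rotation by the angle `θ` about the third axis. -/
noncomputable def Rot (θ : ℝ) : Matrix (Fin 3) (Fin 3) ℝ :=
  !![Real.cos θ, -Real.sin θ, 0; Real.sin θ, Real.cos θ, 0; 0, 0, 1]

/-- The number `exp (i θ)` has order exactly `m`. -/
def AngleOrder (θ : ℝ) (m : ℕ) : Prop :=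
  0 < m ∧ Complex.exp (m * θ * Complex.I) = 1 ∧
    ∀ k : ℕ, 0 < k → k < m → Complex.exp (k * θ * Complex.I) ≠ 1

/-- `F` after the linear change of coordinates `M`. -/
noncomputable def change (M : Matrix (Fin 3) (Fin 3) ℝ) (F : MvPolynomial (Fin 3) ℝ) :
    MvPolynomial (Fin 3) ℝ :=
  bind₁ (fun i => ∑ j, C (M i j) * X j) F

/-- The normal form in polar coordinates: at the point `(cos θ, sin θ, τ)` the form `F` has the
value `p (τ²) + Re (exp (i m θ) B τ)`. -/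
def Polar (m : ℕ) (F : MvPolynomial (Fin 3) ℝ) (p : Polynomial ℝ) (B : ℝ → ℂ) : Prop :=
  p.natDegree ≤ 4 ∧ p.coeff 4 ≠ 0 ∧ eval ![0, 0, 1] F ≠ 0 ∧
    ∀ θ τ : ℝ, eval ![Real.cos θ, Real.sin θ, τ] F =
      p.eval (τ ^ 2) + (Complex.exp (m * θ * Complex.I) * B τ).re

/-- A chain of intervals `[a 0, b 0], [a 1, b 1], ...` on the half line. -/
def Chain (q : ℕ) (a b : ℕ → ℝ) : Prop :=
  0 ≤ a 0 ∧ (∀ j < q, a j < b j) ∧ (∀ j, j + 1 < q → b j < a (j + 1))

/-- The intervals of the chain are the set where `D ≥ 0` on the half line `t ≥ 0`, the end points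
except possibly `a 0 = 0` are zeros of `D`, and `D < 0` between and beyond the intervals. -/
def Band (D : ℝ → ℝ) (q : ℕ) (a b : ℕ → ℝ) : Prop :=
  Chain q a b ∧ (∀ t, 0 ≤ t → (0 ≤ D t ↔ ∃ j < q, a j ≤ t ∧ t ≤ b j)) ∧
    (∀ j < q, D (b j) = 0) ∧ (∀ j < q, a j = 0 ∨ D (a j) = 0) ∧
    (∀ j, j + 1 < q → ∀ t, b j < t → t < a (j + 1) → D t < 0)

/-- The interval number `j` is of the big type: it begins at zero, or the sign of `g` is the same
at both ends. -/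
def Big (g : ℝ → ℝ) (a b : ℕ → ℝ) (j : ℕ) : Prop :=
  a j = 0 ∨ 0 < g (a j) * g (b j)

/-- The points of the curve over the interval `[u, v]` (of values of `t = τ²`). -/
def piece (m : ℕ) (p : Polynomial ℝ) (B : ℝ → ℂ) (u v : ℝ) : Set (Fin 3 → ℝ) :=
  {w | ∃ θ τ : ℝ, 0 ≤ τ ∧ u ≤ τ ^ 2 ∧ τ ^ 2 ≤ v ∧ w = ![Real.cos θ, Real.sin θ, τ] ∧
    p.eval (τ ^ 2) + (Complex.exp (m * θ * Complex.I) * B τ).re = 0}

end Pool.Agent.L7h17.OC
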