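import Pool.Agent.L7h17.OC.Asm

set_option autoImplicit false

open MvPolynomial

namespace Pool.Agent.L7h17.OC

theorem case8 (hCOVM : S_COVM) (hCOV1 : S_COV1) (hTOP : S_TOP) (hSCALE : S_SCALE)
    (hSIM8 : S_SIM8) (hBAND : S_BAND) (hCNT8 : S_CNT8) (hPH : S_PH)
    (F : MvPolynomial (Fin 3) ℝ) (hF : F.IsHomogeneous 8) (hN : Nonsing F) (p : Polynomial ℝ)
    (β : ℂ) (hβ : β ≠ 0) (hP : Polar 8 F p (fun _ => β)) : ¬ SplitsInto 19 F := by
  obtain ⟨h4, hc, -, -⟩ := id hP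
  set D : Polynomial ℝ := Polynomial.C (‖β‖ ^ 2) - p ^ 2 with hD
  obtain ⟨hD0, hDs⟩ := hSIM8 F p β hF hN hβ hP D hD
  have hp4 : p.natDegree = 4 := le_antisymm h4 (Polynomial.le_natDegree_of_ne_zero hc)
  have hp0 : p ≠ 0 := by rintro rfl; simp at hc
  have hdeg2 : (p ^ 2).natDegree = 8 := by rw [Polynomial.natDegree_pow, hp4]
  have hlt : (Polynomial.C (‖β‖ ^ 2) : Polynomial ℝ).natDegree < (p ^ 2).natDegree := by
    rw [hdeg2, Polynomial.natDegree_C]; norm_num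
  have hDdeg : D.natDegree = 8 := by
    rw [hD, ← hdeg2]; exact Polynomial.natDegree_sub_eq_right_of_natDegree_lt hlt
  have hDl : D.leadingCoeff < 0 := by
    rw [Polynomial.leadingCoeff, hDdeg, hD, Polynomial.coeff_sub,
      Polynomial.coeff_eq_zero_of_natDegree_lt (by rw [Polynomial.natDegree_C]; norm_num),
      ← hdeg2, ← Polynomial.leadingCoeff, Polynomial.leadingCoeff_pow]
    have : 0 < p.leadingCoeff ^ 2 := by
      have := Polynomial.leadingCoeff_ne_zero.2 hp0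
      positivity
    linarith
  obtain ⟨q, a, b, hq, hb⟩ := hBAND D hDdeg.le hDl hD0 hDs
  have hev : (fun t => D.eval t) = fun t => ‖β‖ ^ 2 - p.eval t ^ 2 := by
    funext t; rw [hD]; simp
  refine cover_case hCOVM hCOV1 hTOP hSCALE hF 8 (by norm_num) p (fun _ => β) hP continuous_const
    (fun t => D.eval t) (fun τ _ => by rw [hD]; simp) q a b hq hb (fun _ _ _ => hβ) ?_ 2 ?_
    19 (by norm_num)
  · intro u v hu huv _
    obtain ⟨ψ, h1, h2⟩ := hPH 0 β u v hu huv hβ (fun τ _ _ _ => by simpa using hβ)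
    exact ⟨ψ, h1, fun τ x y z => by simpa using h2 τ x y z⟩
  · exact hCNT8 p ‖β‖ q a b h4 hc (norm_pos_iff.2 hβ) hq (by rw [← hev]; exact hb)

theorem case7 (hCOVM : S_COVM) (hCOV1 : S_COV1) (hTOP : S_TOP) (hSCALE : S_SCALE)
    (hSIM7 : S_SIM7) (hBAND : S_BAND) (hCNT7 : S_CNT7)
    (F : MvPolynomial (Fin 3) ℝ) (hF : F.IsHomogeneous 8) (hN : Nonsing F) (p : Polynomial ℝ)
    (β : ℂ) (hβ : β ≠ 0) (hP : Polar 7 F p (fun τ => β * τ)) : ¬ SplitsInto 17 F := by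
  obtain ⟨h4, hc, -, -⟩ := id hP
  set D : Polynomial ℝ := Polynomial.C (‖β‖ ^ 2) * Polynomial.X - p ^ 2 with hD
  obtain ⟨hp00, hDs⟩ := hSIM7 F p β hF hN hβ hP D hD
  have hp4 : p.natDegree = 4 := le_antisymm h4 (Polynomial.le_natDegree_of_ne_zero hc)
  have hp0 : p ≠ 0 := by rintro rfl; simp at hc
  have hdeg2 : (p ^ 2).natDegree = 8 := by rw [Polynomial.natDegree_pow, hp4]
  have hle1 : (Polynomial.C (‖β‖ ^ 2) * Polynomial.X : Polynomial ℝ).natDegree ≤ 1 :=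
    (Polynomial.natDegree_C_mul_le _ _).trans Polynomial.natDegree_X_le
  have hlt : (Polynomial.C (‖β‖ ^ 2) * Polynomial.X : Polynomial ℝ).natDegree <
      (p ^ 2).natDegree := by omega
  have hDdeg : D.natDegree = 8 := by
    rw [hD, ← hdeg2]; exact Polynomial.natDegree_sub_eq_right_of_natDegree_lt hlt
  have hDl : D.leadingCoeff < 0 := by
    rw [Polynomial.leadingCoeff, hDdeg, hD, Polynomial.coeff_sub,
      Polynomial.coeff_eq_zero_of_natDegree_lt (by omega),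
      ← hdeg2, ← Polynomial.leadingCoeff, Polynomial.leadingCoeff_pow]
    have : 0 < p.leadingCoeff ^ 2 := by
      have := Polynomial.leadingCoeff_ne_zero.2 hp0
      positivity
    linarith
  have hD0 : D.eval 0 ≠ 0 := by
    rw [hD]
    simpa using hp00
  obtain ⟨q, a, b, hq, hb⟩ := hBAND D hDdeg.le hDl hD0 hDs
  have hev : (fun t => D.eval t) = fun t => ‖β‖ ^ 2 * t - p.eval t ^ 2 := by
    funext t; rw [hD]; simp
  refine cover_case hCOVM hCOV1 hTOP hSCALE hF 7 (by norm_num) p (fun τ => β * τ) hP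
    (continuous_const.mul Complex.continuous_ofReal)
    (fun t => D.eval t) (fun τ _ => by
      rw [hD, norm_mul, Complex.norm_real, mul_pow, Real.norm_eq_abs, sq_abs]; simp)
    q a b hq hb ?_ ?_ 2 ?_ 17 (by norm_num)
  · intro τ hτ h h'
    have h0 : τ = 0 := by
      rcases mul_eq_zero.1 h' with h'' | h''
      · exact absurd h'' hβ
      · exact_mod_cast h''
    subst h0
    rw [hD] at h
    simp only [Polynomial.eval_sub, Polynomial.eval_mul, Polynomial.eval_C, Polynomial.eval_X,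
      Polynomial.eval_pow] at h
    have : 0 < p.eval 0 ^ 2 := by positivity
    norm_num at h
    exact hp00 h
  · intro u v hu huv hne
    refine ⟨fun _ => Complex.arg β, continuousOn_const, fun τ x y z => ?_⟩
    rw [norm_mul, Complex.norm_real, Real.norm_eq_abs, abs_of_nonneg x]
    conv_lhs => rw [← Complex.norm_mul_exp_arg_mul_I β]
    push_cast
    ring
  · exact hCNT7 p ‖β‖ q a b h4 hc hp00 (norm_pos_iff.2 hβ) hq (by rw [← hev]; exact hb)

theorem norm_sq_lin (α β : ℂ) (t : ℝ) : ‖β + α * (t : ℂ)‖ ^ 2 =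
    ‖β‖ ^ 2 + 2 * ((starRingEnd ℂ) β * α).re * t + ‖α‖ ^ 2 * t ^ 2 := by
  rw [← Complex.normSq_eq_norm_sq, ← Complex.normSq_eq_norm_sq, ← Complex.normSq_eq_norm_sq]
  simp only [Complex.normSq_apply, Complex.add_re, Complex.add_im, Complex.mul_re, Complex.mul_im,
    Complex.ofReal_re, Complex.ofReal_im, Complex.conj_re, Complex.conj_im]
  ring

theorem case6 (hCOVM : S_COVM) (hCOV1 : S_COV1) (hTOP : S_TOP) (hSCALE : S_SCALE)
    (hSIM6 : S_SIM6) (hBAND : S_BAND) (hCNT6 : S_CNT6) (hPH : S_PH)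
    (F : MvPolynomial (Fin 3) ℝ) (hF : F.IsHomogeneous 8) (hN : Nonsing F) (p : Polynomial ℝ)
    (α β : ℂ) (hβ : β ≠ 0) (hP : Polar 6 F p (fun τ => β + α * τ ^ 2))
    (hex : ∀ t : ℝ, 0 < t → p.eval t = 0 → β + α * (t : ℂ) ≠ 0) : ¬ SplitsInto 20 F := by
  obtain ⟨h4, hc, -, -⟩ := id hP
  set N : Polynomial ℝ := Polynomial.C (‖β‖ ^ 2) +
      Polynomial.C (2 * ((starRingEnd ℂ) β * α).re) * Polynomial.X +
      Polynomial.C (‖α‖ ^ 2) * Polynomial.X ^ 2 with hNdef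
  set D : Polynomial ℝ := N - p ^ 2 with hD
  obtain ⟨hD0, hDs⟩ := hSIM6 F p α β hF hN hβ hP hex D (by rw [hD, hNdef])
  have hNdeg : N.natDegree ≤ 2 := by
    rw [hNdef]
    refine (Polynomial.natDegree_add_le _ _).trans (max_le ?_ (Polynomial.natDegree_C_mul_X_pow_le _ _))
    refine (Polynomial.natDegree_add_le _ _).trans (max_le ?_ ?_)
    · rw [Polynomial.natDegree_C]; norm_num
    · exact ((Polynomial.natDegree_C_mul_le _ _).trans Polynomial.natDegree_X_le).trans (by norm_num)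
  have hp4 : p.natDegree = 4 := le_antisymm h4 (Polynomial.le_natDegree_of_ne_zero hc)
  have hp0 : p ≠ 0 := by rintro rfl; simp at hc
  have hdeg2 : (p ^ 2).natDegree = 8 := by rw [Polynomial.natDegree_pow, hp4]
  have hDdeg : D.natDegree = 8 := by
    rw [hD, ← hdeg2]; exact Polynomial.natDegree_sub_eq_right_of_natDegree_lt (by omega)
  have hDl : D.leadingCoeff < 0 := by
    rw [Polynomial.leadingCoeff, hDdeg, hD, Polynomial.coeff_sub,
      Polynomial.coeff_eq_zero_of_natDegree_lt (show N.natDegree < 8 by omega),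
      ← hdeg2, ← Polynomial.leadingCoeff, Polynomial.leadingCoeff_pow]
    have : 0 < p.leadingCoeff ^ 2 := by
      have := Polynomial.leadingCoeff_ne_zero.2 hp0
      positivity
    linarith
  obtain ⟨q, a, b, hq, hb⟩ := hBAND D hDdeg.le hDl hD0 hDs
  have hDe : ∀ t : ℝ, D.eval t = ‖β + α * (t : ℂ)‖ ^ 2 - p.eval t ^ 2 := by
    intro t
    rw [hD, hNdef, norm_sq_lin]
    simp
  have hev : (fun t : ℝ => D.eval t) = fun t : ℝ => ‖β + α * (t : ℂ)‖ ^ 2 - p.eval t ^ 2 := by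
    funext t; exact hDe t
  refine cover_case hCOVM hCOV1 hTOP hSCALE hF 6 (by norm_num) p (fun τ => β + α * τ ^ 2) hP
    (by fun_prop) (fun t => D.eval t) (fun τ _ => by rw [hDe]; push_cast; rfl)
    q a b hq hb ?_ ?_ 3 ?_ 20 (by norm_num)
  · intro τ hτ h h'
    rw [hDe] at h
    have h1 : β + α * ((τ ^ 2 : ℝ) : ℂ) = 0 := by push_cast; exact h'
    rw [h1, norm_zero] at h
    have h2 : p.eval (τ ^ 2) = 0 := by nlinarith [sq_nonneg (p.eval (τ ^ 2))]
    rcases eq_or_lt_of_le hτ with h0 | h0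
    · subst h0
      apply hβ
      simpa using h1
    · exact hex (τ ^ 2) (by positivity) h2 h1
  · intro u v hu huv hne
    exact hPH α β u v hu huv hβ hne
  · exact hCNT6 p α β q a b h4 hc hβ hex hq (by rw [← hev]; exact hb)

theorem main (hLIN : S_LIN) (hTRANS : S_TRANS) (hFORM : S_FORM) (hCOVM : S_COVM) (hCOV1 : S_COV1)
    (hTOP : S_TOP) (hSCALE : S_SCALE) (hSIM8 : S_SIM8) (hSIM7 : S_SIM7) (hSIM6 : S_SIM6)
    (hBAND : S_BAND) (hCNT8 : S_CNT8) (hCNT7 : S_CNT7) (hCNT6 : S_CNT6) (hPH : S_PH)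
    (F : MvPolynomial (Fin 3) ℝ) (hF : F.IsHomogeneous 8) (hN : Nonsing F)
    (T : Matrix (Fin 3) (Fin 3) ℝ) (m : ℕ) (hT : ProjOrder T m) (hm : 5 ≤ m)
    (hTF : Preserves T F) :
    (m = 6 ∧ ¬ SplitsInto 20 F) ∨ (m = 7 ∧ ¬ SplitsInto 17 F) ∨ (m = 8 ∧ ¬ SplitsInto 19 F) := by
  obtain ⟨M, θ, ε, hM, hε, hTM, hθ⟩ := hLIN T m hT (by omega)
  obtain ⟨t1, t2, t3, t4⟩ := hTRANS F M hM
  obtain ⟨χ, hχ⟩ := hTF
  have hrot : ∀ v : Fin 3 → ℝ, eval ((Rot θ).mulVec v) (change M F) =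
      (ε⁻¹ ^ 8 * χ) * eval v (change M F) := by
    intro v
    rw [t2, t2]
    have e : M.mulVec ((Rot θ).mulVec v) = ε⁻¹ • (T.mulVec (M.mulVec v)) := by
      rw [Matrix.mulVec_mulVec, Matrix.mulVec_mulVec, hTM, Matrix.smul_mulVec, smul_smul,
        inv_mul_cancel₀ hε, one_smul]
    rw [e, eval_smul_hom hF, hχ]
    ring
  obtain ⟨p, α, β, hβ, h⟩ := hFORM (change M F) θ m (t1 hF) (t3 hN) hθ hm ⟨_, hrot⟩
  rcases h with ⟨rfl, hP⟩ | ⟨rfl, hP⟩ | ⟨rfl, hP, hex⟩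
  · exact Or.inr (Or.inr ⟨rfl, fun hs => case8 hCOVM hCOV1 hTOP hSCALE hSIM8 hBAND hCNT8 hPH _
      (t1 hF) (t3 hN) p β hβ hP (t4 _ hs)⟩)
  · exact Or.inr (Or.inl ⟨rfl, fun hs => case7 hCOVM hCOV1 hTOP hSCALE hSIM7 hBAND hCNT7 _
      (t1 hF) (t3 hN) p β hβ hP (t4 _ hs)⟩)
  · exact Or.inl ⟨rfl, fun hs => case6 hCOVM hCOV1 hTOP hSCALE hSIM6 hBAND hCNT6 hPH _
      (t1 hF) (t3 hN) p α β hβ hP hex (t4 _ hs)⟩

end Pool.Agent.L7h17.OC
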