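import Pool.Agent.L7h17.OC.Defs

/-!
# Project OC: the parts, with proofs

Polar coordinates `z = x + i y = e^{iθ}` and the third coordinate `τ`. A form of degree 8 which is
invariant under a rotation of order `m ≥ 5` and nonsingular at the circular points and at the centre
has `m = 6, 7` or `8` and the shape `p (τ²) + Re (e^{imθ} B τ)` with `B = β` (`m = 8`), `β τ`
(`m = 7`), `β + α τ²` (`m = 6`). With `t = τ²` the real points lie over the set
`{t ≥ 0 : p t ^ 2 ≤ |B| ^ 2}`, a union of at most four intervals; over an interval the curve is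
covered by `m` connected sets, and by one if `p` has different signs at the two ends; Rolle's
theorem bounds the number of intervals of the first kind.
-/

set_option autoImplicit false

open MvPolynomial

namespace Pool.Agent.L7h17.OC

/-- [LIN] 150 lines. `T` is conjugate to a multiple of a rotation.
Proof: `T ^ m = c`, `c ≠ 0`. If `c > 0` put `T' = T / c^(1/m)`; if `c < 0` then `m` is odd
(`det T ^ m = c ^ 3`, so for even `m` it would be negative) and `T' = -T / |c|^(1/m)`; `T' ^ m = 1`.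
`T'` has a real eigenvalue (characteristic polynomial of degree 3), it is `±1`; if it is `-1` then
`m` is even and we replace `T'` by `-T'` (still `T' ^ m = 1`). So `T' e = e`. The other eigenvalues:
`T'` is annihilated by the separable polynomial `X ^ m - 1`, so it is diagonalizable over `ℂ`; if
all eigenvalues were real they would be `±1`, so `T' ^ 2 = 1`, a contradiction to `m ≥ 3`. Take a
nonreal eigenvalue `ω`, `|ω| = 1`, `ω = exp (-i θ)`, with the eigenvector `u + i v`: then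
`T' u = cos θ u + sin θ v`, `T' v = - sin θ u + cos θ v`, and `u, v, e` are linearly independent
(`u + i v`, `u - i v`, `e` are eigenvectors for different eigenvalues). `M` has the columns
`u, v, e`. `T ^ k = ε ^ k M (Rot (k θ)) M⁻¹` is a multiple of one iff `exp (i k θ) = 1`. -/
def S_LIN : Prop := ∀ (T : Matrix (Fin 3) (Fin 3) ℝ) (m : ℕ), ProjOrder T m → 3 ≤ m →
  ∃ (M : Matrix (Fin 3) (Fin 3) ℝ) (θ ε : ℝ), IsUnit M ∧ ε ≠ 0 ∧ T * M = ε • (M * Rot θ) ∧
    AngleOrder θ m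

/-- [TRANS] 120 lines. Linear changes of coordinates. -/
def S_TRANS : Prop := ∀ (F : MvPolynomial (Fin 3) ℝ) (M : Matrix (Fin 3) (Fin 3) ℝ), IsUnit M →
  (F.IsHomogeneous 8 → (change M F).IsHomogeneous 8) ∧
  (∀ v : Fin 3 → ℝ, eval v (change M F) = eval (M.mulVec v) F) ∧
  (Nonsing F → Nonsing (change M F)) ∧
  (∀ k, SplitsInto k F → SplitsInto k (change M F))

/-- [EXP] 120 lines. `F` in the coordinates `Z = x + i y`, `W = x - i y`, `U`. Proof: substitute in
each monomial (or: `F` with complex coefficients after the invertible linear substitution is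
homogeneous of degree 8, and a homogeneous polynomial is the sum over the exponents `(a, b)`); the
relation `C b a = conj (C a b)`: complex conjugation, `F` is real, and [COEF]. -/
def S_EXP : Prop := ∀ F : MvPolynomial (Fin 3) ℝ, F.IsHomogeneous 8 →
  ∃ c : ℕ → ℕ → ℂ, (∀ Z W U : ℂ, aeval ![(Z + W) / 2, (Z - W) / (2 * Complex.I), U] F =
      ∑ a ∈ Finset.range 9, ∑ b ∈ Finset.range (9 - a), c a b * Z ^ a * W ^ b * U ^ (8 - a - b)) ∧
    ∀ a b : ℕ, a + b ≤ 8 → c b a = (starRingEnd ℂ) (c a b)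

/-- [COEF] 50 lines. The coefficients are determined (`MvPolynomial.funext` in three variables, or
one variable after the other). -/
def S_COEF : Prop := ∀ c : ℕ → ℕ → ℂ,
  (∀ Z W U : ℂ, ∑ a ∈ Finset.range 9, ∑ b ∈ Finset.range (9 - a),
    c a b * Z ^ a * W ^ b * U ^ (8 - a - b) = 0) → ∀ a b : ℕ, a + b ≤ 8 → c a b = 0

/-- [INV] 80 lines, may assume `S_COEF`. Proof: `eval (Rot θ v) F = χ eval v F` for all real `v` is
an identity of polynomials, so it holds at complex points; the rotation maps `Z, W, U` to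
`e^{iθ} Z, e^{-iθ} W, U`. Then [COEF] for `c a b (e^{i(a-b)θ} - χ)`. -/
def S_INV : Prop := ∀ (F : MvPolynomial (Fin 3) ℝ) (θ χ : ℝ) (c : ℕ → ℕ → ℂ),
  (∀ Z W U : ℂ, aeval ![(Z + W) / 2, (Z - W) / (2 * Complex.I), U] F =
      ∑ a ∈ Finset.range 9, ∑ b ∈ Finset.range (9 - a), c a b * Z ^ a * W ^ b * U ^ (8 - a - b)) →
  (∀ v : Fin 3 → ℝ, eval ((Rot θ).mulVec v) F = χ * eval v F) →
  ∀ a b : ℕ, a + b ≤ 8 → c a b ≠ 0 →
    Complex.exp (((a : ℂ) - (b : ℂ)) * θ * Complex.I) = (χ : ℂ)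

/-- [DIR] 40 lines. Nonsingularity in terms of derivatives along lines (the derivative at `0` of
`s ↦ F (v + s w)` is `∑ w i ∂F/∂x_i (v)`). -/
def S_DIR : Prop := ∀ F : MvPolynomial (Fin 3) ℝ, Nonsing F → ∀ v : Fin 3 → ℂ, v ≠ 0 →
  aeval v F = 0 → ∃ w : Fin 3 → ℂ, ¬ HasDerivAt (fun s : ℂ => aeval (v + s • w) F) 0 0

/-- [FORM] 250 lines, may assume `S_EXP`, `S_COEF`, `S_INV`, `S_DIR`. The normal form.
Proof: take `c` from [EXP]. By [INV] `c a b ≠ 0` implies `ω ^ (a - b) = χ`, `ω = e^{iθ}` of order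
`m ≥ 5`, `χ` real. (1) Centre: the real point `(0, 0, 1)` (`Z = W = 0, U = 1`): if `c 0 0 = 0` it
is a point of the curve; the derivatives there are `c 1 0` and `c 0 1`; by [DIR] one is not zero,
so `ω = χ` or `ω⁻¹ = χ` is real, impossible. So `c 0 0 ≠ 0` and `χ = 1`; `c 0 0` is real.
(2) Circular point `Z = 1, W = U = 0`: value `c 8 0`, derivatives `8 c 8 0`, `c 7 1`, `c 7 0` in the
directions `Z, W, U`; not all zero by [DIR], so `ω ^ 8 = 1` or `ω ^ 6 = 1` or `ω ^ 7 = 1`, and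
`m ≥ 5` divides 8, 6 or 7, so `m = 8, 6, 7`. (3) `m = 8`: only `a = b` and `(8,0), (0,8)`;
`m = 7`: `a = b`, `(7,0), (0,7)`; `m = 6`: `a = b`, `(6,0), (7,1), (0,6), (1,7)`. With
`p = ∑_k c k k T ^ (4 - k)` (real numbers), `β = 2 c 8 0`, resp. `2 c 7 0`, resp. `2 c 7 1` and
`α = 2 c 6 0` this is the claim (`Z = e^{iθ}`, `W = e^{-iθ}`, `U = τ`). `β ≠ 0` by (2).
(4) `m = 6`: suppose `t > 0`, `p t = 0`, `β + α t = 0`. Let `s = 1 / t`. At the complex points with
`Z W = s`, `U = 1` the form is `F = s⁴ p (1/s) + Re..` : put `P (S) = S ^ 4 p (1 / S)`; then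
`F = P (Z W) + (Z ^ 6 (α + β Z W) + W ^ 6 (conj α + conj β Z W)) / 2`, `P s = 0`,
`α + β s = 0`. Write `P S = (S - s) P₁ S`; `F = (Z W - s) Q` with
`Q = P₁ (Z W) + (β Z ^ 6 + conj β W ^ 6) / 2`. There are `Z ≠ 0`, `W = s / Z` with `Q = 0` (a
quadratic equation for `Z ^ 6` with nonzero product of the roots). Both factors vanish, so all
derivatives of `F` vanish at this point, a contradiction to [DIR]. -/
def S_FORM : Prop := ∀ (F : MvPolynomial (Fin 3) ℝ) (θ : ℝ) (m : ℕ), F.IsHomogeneous 8 →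
  Nonsing F → AngleOrder θ m → 5 ≤ m →
  (∃ χ : ℝ, ∀ v : Fin 3 → ℝ, eval ((Rot θ).mulVec v) F = χ * eval v F) →
  ∃ (p : Polynomial ℝ) (α β : ℂ), β ≠ 0 ∧
    ((m = 8 ∧ Polar 8 F p (fun _ => β)) ∨ (m = 7 ∧ Polar 7 F p (fun τ => β * τ)) ∨
      (m = 6 ∧ Polar 6 F p (fun τ => β + α * τ ^ 2) ∧
        ∀ t : ℝ, 0 < t → p.eval t = 0 → β + α * t ≠ 0))

/-- [NSP] 80 lines. Real points in polar coordinates. Proof: the derivative of `F` at
`v = (cos θ, sin θ, τ)` in the direction `(- sin θ, cos θ, 0)` is zero, in the direction `(0, 0, 1)`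
it is zero, and in the direction `v` it is `8 F v = 0` (Euler). These directions span `ℝ³`, so all
partial derivatives vanish at the real point `v ≠ 0`. -/
def S_NSP : Prop := ∀ F : MvPolynomial (Fin 3) ℝ, F.IsHomogeneous 8 → Nonsing F → ∀ θ τ : ℝ,
  eval ![Real.cos θ, Real.sin θ, τ] F = 0 →
  HasDerivAt (fun x : ℝ => eval ![Real.cos x, Real.sin x, τ] F) 0 θ →
  HasDerivAt (fun x : ℝ => eval ![Real.cos θ, Real.sin θ, x] F) 0 τ → False

/-- [SIM8] 80 lines, may assume `S_NSP`. Proof: let `D = |β|² - p²`, `t = τ² ≥ 0`, `D t = 0` and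
(`t = 0` or `D' t = 0`). Choose `θ` with `e^{8iθ} β = - p t` (both sides have the same absolute
value). Then `F = 0`, the derivative in `θ` is `Re (8 i e^{8iθ} β) = 0`, the derivative in `τ` is
`2 τ p' (τ²)`, which is `0` because `τ = 0` or `D' t = - 2 p t p' t = 0` and `p t ≠ 0`. -/
def S_SIM8 : Prop := ∀ (F : MvPolynomial (Fin 3) ℝ) (p : Polynomial ℝ) (β : ℂ),
  F.IsHomogeneous 8 → Nonsing F → β ≠ 0 → Polar 8 F p (fun _ => β) →
  ∀ D : Polynomial ℝ, D = Polynomial.C (‖β‖ ^ 2) - p ^ 2 →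
    D.eval 0 ≠ 0 ∧ ∀ t : ℝ, 0 < t → D.eval t = 0 → D.derivative.eval t ≠ 0

/-- [SIM7] 90 lines, may assume `S_NSP`. Proof: `D = |β|² t - p²`. At `τ = 0`: if `p 0 = 0` choose
`θ` with `Re (e^{7iθ} β) = 0`; `F = 0` there, the derivative in `θ` is zero since `τ = 0`, the
derivative in `τ` is `Re (e^{7iθ} β) = 0`. At `t = τ² > 0` with `D t = 0`, `D' t = 0`: choose `θ`
with `e^{7iθ} β τ = - p t`; the derivative in `τ` is `2 τ p' t + Re (e^{7iθ} β) =
2 τ p' t - p t / τ`, which is zero: `|β|² = 2 p p'` and `|β|² τ² = p²` give `2 τ² p p' = p²`. -/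
def S_SIM7 : Prop := ∀ (F : MvPolynomial (Fin 3) ℝ) (p : Polynomial ℝ) (β : ℂ),
  F.IsHomogeneous 8 → Nonsing F → β ≠ 0 → Polar 7 F p (fun τ => β * τ) →
  ∀ D : Polynomial ℝ, D = Polynomial.C (‖β‖ ^ 2) * Polynomial.X - p ^ 2 →
    p.eval 0 ≠ 0 ∧ ∀ t : ℝ, 0 < t → D.eval t = 0 → D.derivative.eval t ≠ 0

/-- [SIM6] 100 lines, may assume `S_NSP`. Proof: `D = |β + α t|² - p²` (a polynomial in `t`). Let
`t = τ² ≥ 0`, `D t = 0`, and `t = 0` or `D' t = 0`. By the hypothesis `p t ≠ 0` (for `t = 0`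
because `β ≠ 0`), so `B = β + α t ≠ 0`. Choose `θ` with `e^{6iθ} B = - p t`. The derivative in `θ`
is `Re (6 i e^{6iθ} B) = 0`; the derivative in `τ` is
`2 τ (p' t + Re (e^{6iθ} α)) = 2 τ (p' t - p t Re (α / B)) = - τ D' t / p t = 0`. -/
def S_SIM6 : Prop := ∀ (F : MvPolynomial (Fin 3) ℝ) (p : Polynomial ℝ) (α β : ℂ),
  F.IsHomogeneous 8 → Nonsing F → β ≠ 0 → Polar 6 F p (fun τ => β + α * τ ^ 2) →
  (∀ t : ℝ, 0 < t → p.eval t = 0 → β + α * t ≠ 0) →
  ∀ D : Polynomial ℝ, D = Polynomial.C (‖β‖ ^ 2) +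
      Polynomial.C (2 * ((starRingEnd ℂ) β * α).re) * Polynomial.X +
      Polynomial.C (‖α‖ ^ 2) * Polynomial.X ^ 2 - p ^ 2 →
    D.eval 0 ≠ 0 ∧ ∀ t : ℝ, 0 < t → D.eval t = 0 → D.derivative.eval t ≠ 0

/-- [BAND] 180 lines, pure one-variable calculus. The set `{t ≥ 0 : D t ≥ 0}` for a polynomial of
degree at most 8 with negative leading coefficient, `D 0 ≠ 0` and only simple positive zeros.
Proof: let `w_1 < ... < w_n` (`n ≤ 8`) be the positive zeros. `D < 0` beyond `w_n`, and `D` changes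
its sign at each (simple) zero, no sign change elsewhere. So the set is
`[w_{n-1}, w_n] ∪ [w_{n-3}, w_{n-2}] ∪ ...`, ending with `[w_1, w_2]` for `n` even and `[0, w_1]`
for `n` odd. (Induction on the number of zeros from the right is convenient.) -/
def S_BAND : Prop := ∀ D : Polynomial ℝ, D.natDegree ≤ 8 → D.leadingCoeff < 0 → D.eval 0 ≠ 0 →
  (∀ t : ℝ, 0 < t → D.eval t = 0 → D.derivative.eval t ≠ 0) →
  ∃ (q : ℕ) (a b : ℕ → ℝ), q ≤ 4 ∧ Band (fun t => D.eval t) q a b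

/-- [GRP] 60 lines. Rolle twice: if `G - L` (`L` affine) vanishes at `n` points
`x 0 < ... < x (n-1)`, then the second derivative of the polynomial `G` vanishes at `n - 2` points
strictly between `x 0` and `x (n-1)`. -/
def S_GRP : Prop := ∀ (G : Polynomial ℝ) (l₀ l₁ : ℝ) (n : ℕ) (x : ℕ → ℝ), 2 ≤ n →
  (∀ i, i + 1 < n → x i < x (i + 1)) → (∀ i < n, G.eval (x i) = l₀ + l₁ * x i) →
  ∃ y : ℕ → ℝ, (∀ i, i + 1 < n - 2 → y i < y (i + 1)) ∧
    ∀ i < n - 2, x 0 < y i ∧ y i < x (n - 1) ∧ G.derivative.derivative.eval (y i) = 0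

/-- [CNT8] 150 lines, may assume `S_GRP`. At most two big intervals for `m = 8`.
Proof: all end points different from `a 0 = 0` satisfy `p² = r²`; the label of a point is the sign
of `p`. Neighbouring intervals: `p (b j)` and `p (a (j+1))` have the same label, because
`p² > r²` in between and `p` has no zero there. Suppose that there are three big intervals among
the `q ≤ 4`. If all intervals are big, all the end points (at least five) have one label and
`p = ± r` at five points, so by [GRP] `p''` has three zeros, but `p''` is a nonzero polynomial of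
degree 2 (`12 coeff 4 ≠ 0`). If `q = 4` and exactly one interval is not big, the labels change
exactly once: `k` points with one label, then `n - k` points with the other one, `n ≥ 7`; [GRP] for
both groups gives `(k - 2)⁺ + (n - k - 2)⁺ ≥ 3` zeros of `p''`, those of the first group being
smaller than those of the second group. -/
def S_CNT8 : Prop := ∀ (p : Polynomial ℝ) (r : ℝ) (q : ℕ) (a b : ℕ → ℝ), p.natDegree ≤ 4 →
  p.coeff 4 ≠ 0 → 0 < r → q ≤ 4 → Band (fun t => r ^ 2 - p.eval t ^ 2) q a b →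
  ∀ J : Finset ℕ, (∀ j ∈ J, j < q ∧ Big (fun t => p.eval t) a b j) → J.card ≤ 2

/-- [CNT7] 150 lines, may assume `S_GRP`. At most two big intervals for `m = 7`. Proof: as [CNT8],
with `x = √t`, `G x = p (x²)`, an even polynomial of degree 8 with `G = ± r x` at the end points,
which are all positive (`D 0 < 0`, so `a 0 > 0`). `G''` is `56 c₄ x⁶ + 30 c₃ x⁴ + 12 c₂ x² + 2 c₁`,
so it has at most three positive zeros. Three big intervals: either all the (at least six) end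
points have one label, which gives four positive zeros of `G''`, or `q = 4`, eight end points, one
change of the label, which gives `(k - 2)⁺ + (8 - k - 2)⁺ ≥ 4` positive zeros. -/
def S_CNT7 : Prop := ∀ (p : Polynomial ℝ) (r : ℝ) (q : ℕ) (a b : ℕ → ℝ), p.natDegree ≤ 4 →
  p.coeff 4 ≠ 0 → p.eval 0 ≠ 0 → 0 < r → q ≤ 4 →
  Band (fun t => r ^ 2 * t - p.eval t ^ 2) q a b →
  ∀ J : Finset ℕ, (∀ j ∈ J, j < q ∧ Big (fun t => p.eval t) a b j) → J.card ≤ 2

/-- [SEVA] 80 lines. Seven zeros, nonreal case. Proof: `N = |β + α t|² = A + 2 B t + C t²` with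
`κ = A C - B² = (Im (conj β α))² > 0`, so `N > 0` and `√N` is smooth with
`(√N)'' = κ / N^(3/2)`. If `s p = √N` at seven points then by Rolle (twice)
`s p'' = κ N^(-3/2)` at five points, so `E = s p'' N^(3/2) - κ` vanishes at five points and
`E' = s N^(1/2) (p''' N + (3/2) p'' N')` at four points; but `p''' N + (3/2) p'' N'` is a polynomial
of degree 3 with leading coefficient `(24 + 36) (coeff 4) C ≠ 0`. -/
def S_SEVA : Prop := ∀ (p : Polynomial ℝ) (s : ℝ) (α β : ℂ) (x : ℕ → ℝ), p.natDegree ≤ 4 →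
  p.coeff 4 ≠ 0 → (s = 1 ∨ s = -1) → ((starRingEnd ℂ) β * α).im ≠ 0 →
  (∀ i < 6, x i < x (i + 1)) → (∀ i < 7, 0 < x i ∧ s * p.eval (x i) = ‖β + α * (x i : ℂ)‖) → False

/-- [SEVB] 80 lines, may assume `S_GRP`. Seven zeros, real case. Proof: `α = γ β` with `γ` real
(`γ = Re (conj β α) / |β|²`), so `|β + α t| = |β| |1 + γ t|`. If `γ ≥ 0` this is affine for `t > 0`
and `p` minus an affine function has seven zeros. If `γ < 0`, let `t₀ = -1/γ`; none of the points is
`t₀` (`p ≠ 0` where `β + α t = 0`); the function is affine on both sides of `t₀`. If `i` points are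
smaller than `t₀` and `7 - i` are larger, then by [GRP] `p''` has at least
`(i - 2)⁺ + (5 - i)⁺ ≥ 3` zeros (`p''` nonzero of degree 2), a contradiction. -/
def S_SEVB : Prop := ∀ (p : Polynomial ℝ) (s : ℝ) (α β : ℂ) (x : ℕ → ℝ), p.natDegree ≤ 4 →
  p.coeff 4 ≠ 0 → (s = 1 ∨ s = -1) → β ≠ 0 → ((starRingEnd ℂ) β * α).im = 0 →
  (∀ t : ℝ, 0 < t → p.eval t = 0 → β + α * t ≠ 0) →
  (∀ i < 6, x i < x (i + 1)) → (∀ i < 7, 0 < x i ∧ s * p.eval (x i) = ‖β + α * (x i : ℂ)‖) → False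

/-- [CNT6] 100 lines, may assume `S_SEVA`, `S_SEVB`. At most three big intervals for `m = 6`.
Proof: `p ≠ 0` at all the end points (`p² = |β + α t|²`; if `p t = 0` then `β + α t = 0`, excluded
for `t > 0`), and `p (b j)`, `p (a (j+1))` have the same sign, because `p² > |..|² ≥ 0` in between.
If four intervals are big (so `q = 4`) all the end points `b 0, a 1, b 1, ..., b 3` (and `a 0` if it
is positive) have the same sign `s` of `p`, so `s p = |β + α t|` at seven positive points. -/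
def S_CNT6 : Prop := ∀ (p : Polynomial ℝ) (α β : ℂ) (q : ℕ) (a b : ℕ → ℝ), p.natDegree ≤ 4 →
  p.coeff 4 ≠ 0 → β ≠ 0 → (∀ t : ℝ, 0 < t → p.eval t = 0 → β + α * t ≠ 0) → q ≤ 4 →
  Band (fun t => ‖β + α * (t : ℂ)‖ ^ 2 - p.eval t ^ 2) q a b →
  ∀ J : Finset ℕ, (∀ j ∈ J, j < q ∧ Big (fun t => p.eval t) a b j) → J.card ≤ 3

/-- [PH] 60 lines. A continuous argument of `β + α τ²` on an interval without zero. Proof:
`β + α τ² = β (1 + γ τ²)`, `γ = α / β`. If `γ` is not real, or `γ` is real and `1 + γ τ² > 0` on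
the interval, then `1 + γ τ²` is in the slit plane and `ψ τ = arg β + arg (1 + γ τ²)`; otherwise
`1 + γ τ² < 0` on the whole interval and `ψ = arg β + π`. -/
def S_PH : Prop := ∀ (α β : ℂ) (u v : ℝ), 0 ≤ u → u ≤ v → β ≠ 0 →
  (∀ τ : ℝ, 0 ≤ τ → u ≤ τ ^ 2 → τ ^ 2 ≤ v → β + α * (τ : ℂ) ^ 2 ≠ 0) →
  ∃ ψ : ℝ → ℝ, ContinuousOn ψ {τ | 0 ≤ τ ∧ u ≤ τ ^ 2 ∧ τ ^ 2 ≤ v} ∧
    ∀ τ : ℝ, 0 ≤ τ → u ≤ τ ^ 2 → τ ^ 2 ≤ v → β + α * (τ : ℂ) ^ 2 =
      (‖β + α * (τ : ℂ) ^ 2‖ : ℂ) * Complex.exp (ψ τ * Complex.I)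

/-- [COVM] 150 lines. Over an interval whose right end is a level point (`p² = |B|²`) the curve is
covered by `m` connected sets. Proof: the set `I` of the `τ` is the interval `[√u, √v]`. Let
`φ τ = arccos (- p (τ²) / |B τ|)`, continuous on `I`. For an integer `k` and a sign let `A^±_k` be
the image of `I` under `τ ↦ (cos θ, sin θ, τ)`, `θ = (- ψ τ + 2 π k ± φ τ) / m`: preconnected, and
contained in the piece since `m θ + ψ = 2 π k ± φ`; every point of the piece is in one of them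
(`cos (m θ + ψ) = cos φ`), and `k` matters only modulo `m`. At `√v` we have `φ = 0` or `φ = π`. If
`φ = 0` put `A_k = A^+_k ∪ A^-_k`, if `φ = π` put `A_k = A^+_k ∪ A^-_{k+1}`: the two sets have the
point over `√v` in common. -/
def S_COVM : Prop := ∀ (m : ℕ) (p : Polynomial ℝ) (B : ℝ → ℂ) (ψ : ℝ → ℝ) (u v : ℝ), 0 < m →
  0 ≤ u → u ≤ v → ContinuousOn B {τ | 0 ≤ τ ∧ u ≤ τ ^ 2 ∧ τ ^ 2 ≤ v} →
  ContinuousOn ψ {τ | 0 ≤ τ ∧ u ≤ τ ^ 2 ∧ τ ^ 2 ≤ v} →
  (∀ τ : ℝ, 0 ≤ τ → u ≤ τ ^ 2 → τ ^ 2 ≤ v → B τ ≠ 0 ∧ |p.eval (τ ^ 2)| ≤ ‖B τ‖ ∧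
    B τ = (‖B τ‖ : ℂ) * Complex.exp (ψ τ * Complex.I)) →
  |p.eval v| = ‖B (Real.sqrt v)‖ →
  ∃ A : Fin m → Set (Fin 3 → ℝ), (∀ k, IsPreconnected (A k)) ∧ piece m p B u v = ⋃ k, A k

/-- [COV1] 120 lines. If moreover the left end is a level point and the signs of `p` at the ends are
different, then the whole piece over the interval is connected. Proof: notation of [COVM]; `φ = 0`
at one end and `φ = π` at the other. If `φ (√u) = 0`: `A^+_k` and `A^-_k` meet over `√u`, and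
`A^+_k`, `A^-_{k+1}` meet over `√v`; the sets `A^+_k ∪ A^-_k`, `k = 0, 1, 2, ...`, form a chain
(`IsPreconnected.iUnion_of_chain`) and cover the piece. The other case is similar. -/
def S_COV1 : Prop := ∀ (m : ℕ) (p : Polynomial ℝ) (B : ℝ → ℂ) (ψ : ℝ → ℝ) (u v : ℝ), 0 < m →
  0 ≤ u → u ≤ v → ContinuousOn B {τ | 0 ≤ τ ∧ u ≤ τ ^ 2 ∧ τ ^ 2 ≤ v} →
  ContinuousOn ψ {τ | 0 ≤ τ ∧ u ≤ τ ^ 2 ∧ τ ^ 2 ≤ v} →
  (∀ τ : ℝ, 0 ≤ τ → u ≤ τ ^ 2 → τ ^ 2 ≤ v → B τ ≠ 0 ∧ |p.eval (τ ^ 2)| ≤ ‖B τ‖ ∧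
    B τ = (‖B τ‖ : ℂ) * Complex.exp (ψ τ * Complex.I)) →
  |p.eval v| = ‖B (Real.sqrt v)‖ → |p.eval u| = ‖B (Real.sqrt u)‖ → p.eval u * p.eval v < 0 →
  IsPreconnected (piece m p B u v)

/-- [TOP] 60 lines. Proof: `realCone F` is the disjoint union of the `C i`, which are relatively
closed and finitely many, so relatively clopen; each `A j` is contained in one `C i` (if it is
nonempty). Every `C i` contains some `v`, and then `c • v ∈ C i ∩ A j`. So `i ↦ j` is injective. -/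
def S_TOP : Prop := ∀ (k n : ℕ) (F : MvPolynomial (Fin 3) ℝ) (A : Fin n → Set (Fin 3 → ℝ)),
  (∀ j, IsPreconnected (A j)) → (∀ j, A j ⊆ realCone F) →
  (∀ v ∈ realCone F, ∃ c : ℝ, c ≠ 0 ∧ ∃ j, c • v ∈ A j) → SplitsInto k F → k ≤ n

/-- [SCALE] 50 lines. Every real zero can be scaled to polar form with `τ ≥ 0`. Proof: for
`v = (x, y, z)` with `x = y = 0` the value is `z ^ 8 F (0, 0, 1) ≠ 0`. Otherwise divide by
`√(x² + y²)`, and change the sign if `z < 0`. -/
def S_SCALE : Prop := ∀ F : MvPolynomial (Fin 3) ℝ, F.IsHomogeneous 8 → eval ![0, 0, 1] F ≠ 0 →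
  ∀ v ∈ realCone F, ∃ c : ℝ, c ≠ 0 ∧ ∃ θ τ : ℝ, 0 ≤ τ ∧
    c • v = ![Real.cos θ, Real.sin θ, τ] ∧ eval ![Real.cos θ, Real.sin θ, τ] F = 0

end Pool.Agent.L7h17.OC
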